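import Mathlib

/-!
Counting multiples of powers of two in the two halves of an interval.
-/

set_option autoImplicit false

namespace Pool.Agent.Q228.Neck

open Finset

theorem cnt_dvd (a b r : ℤ) (hr : 0 < r) (hab : a ≤ b) :
    (((Ioc a b).filter (fun x => r ∣ x)).card : ℤ) = b / r - a / r := by
  rw [Int.Ioc_filter_dvd_card _ _ hr]
  have h1 : ∀ z : ℤ, ⌊(z : ℚ) / (r : ℚ)⌋ = z / r := by
    intro z
    rw [Int.floor_div_cast_of_nonneg hr.le, Int.floor_intCast]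
  rw [h1, h1, max_eq_left]
  have := Int.ediv_le_ediv hr hab
  omega

/-- Difference of the numbers of multiples of `2^j` in `(a, a+h]` and `(a+h, a+2h]`. -/
def dl (a h : ℤ) (j : ℕ) : ℤ := 2 * ((a + h) / 2 ^ j) - a / 2 ^ j - (a + 2 * h) / 2 ^ j

theorem div_pow_add (z : ℤ) (i j : ℕ) : z / 2 ^ (i + j) = z / 2 ^ i / 2 ^ j := by
  rw [pow_add, Int.ediv_ediv_of_nonneg (by positivity)]

theorem dl_low (a m : ℤ) (k j : ℕ) (hj : j ≤ k) : dl a (2 ^ k * m) j = 0 := by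
  obtain ⟨i, rfl⟩ := Nat.exists_eq_add_of_le hj
  unfold dl
  have e1 : a + 2 ^ (j + i) * m = a + (2 ^ i * m) * 2 ^ j := by ring
  have e2 : a + 2 * (2 ^ (j + i) * m) = a + (2 * (2 ^ i * m)) * 2 ^ j := by ring
  rw [e1, e2, Int.add_mul_ediv_right _ _ (by positivity), Int.add_mul_ediv_right _ _ (by positivity)]
  ring

theorem dl_shift (a m : ℤ) (k i : ℕ) :
    dl a (2 ^ k * m) (k + i) = dl (a / 2 ^ k) m i := by
  unfold dl
  have e1 : a + 2 ^ k * m = a + m * 2 ^ k := by ring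
  have e2 : a + 2 * (2 ^ k * m) = a + (2 * m) * 2 ^ k := by ring
  rw [div_pow_add, div_pow_add, div_pow_add, e1, e2, Int.add_mul_ediv_right _ _ (by positivity),
    Int.add_mul_ediv_right _ _ (by positivity)]

theorem dl_abs (a h : ℤ) (j : ℕ) : -1 ≤ dl a h j ∧ dl a h j ≤ 1 := by
  unfold dl
  have hq : (0 : ℤ) < 2 ^ j := by positivity
  generalize (2 : ℤ) ^ j = q at hq
  have h1 := Int.emod_add_mul_ediv a q
  have h2 := Int.emod_add_mul_ediv (a + h) q
  have h3 := Int.emod_add_mul_ediv (a + 2 * h) q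
  have b1 := Int.emod_nonneg a hq.ne'
  have b2 := Int.emod_nonneg (a + h) hq.ne'
  have b3 := Int.emod_nonneg (a + 2 * h) hq.ne'
  have c1 := Int.emod_lt_of_pos a hq
  have c2 := Int.emod_lt_of_pos (a + h) hq
  have c3 := Int.emod_lt_of_pos (a + 2 * h) hq
  generalize a / q = A at *
  generalize (a + h) / q = B at *
  generalize (a + 2 * h) / q = C at *
  -- q * (2B - A - C) = 2 (a+h) - a - (a+2h) - (2 r2 - r1 - r3) = r1 + r3 - 2 r2 ∈ (-2q, 2q)
  have key : q * (2 * B - A - C) = a % q + (a + 2 * h) % q - 2 * ((a + h) % q) := by linarith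
  constructor
  · by_contra hc
    have : 2 * B - A - C ≤ -2 := by omega
    nlinarith
  · by_contra hc
    have : 2 ≤ 2 * B - A - C := by omega
    nlinarith

/-- level one -/
theorem dl_one (w m : ℤ) (hm : m % 2 = 1) :
    (w % 2 = 0 → dl w m 1 = -1) ∧ (w % 2 = 1 → dl w m 1 = 1) := by
  unfold dl
  constructor <;> intro h <;> omega

theorem dl_two (w m : ℤ) (hm : m % 2 = 1) : dl w m 2 ≠ -dl w m 1 := by
  unfold dl
  have h1 : w % 4 = 0 ∨ w % 4 = 1 ∨ w % 4 = 2 ∨ w % 4 = 3 := by omega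
  have h2 : m % 4 = 1 ∨ m % 4 = 3 := by omega
  rcases h1 with h1 | h1 | h1 | h1 <;> rcases h2 with h2 | h2 <;> omega

theorem dl_unit (w : ℤ) (i : ℕ) : dl w 1 (i + 2) ≠ -dl w 1 1 := by
  have h4 : (2 : ℤ) ^ (i + 2) = 2 * (2 * 2 ^ i) := by ring
  have hq : (0 : ℤ) < 2 ^ i := by positivity
  have e : ∀ z : ℤ, z / 2 ^ (i + 2) = z / 2 / (2 * 2 ^ i) := by
    intro z
    rw [h4, Int.ediv_ediv_of_nonneg (by norm_num)]
  unfold dl
  rw [e, e, e]
  rcases Int.emod_two_eq_zero_or_one w with hw | hw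
  · have a1 : (w + 1) / 2 = w / 2 := by omega
    have a2 : (w + 2 * 1) / 2 = w / 2 + 1 := by omega
    have hmono : w / 2 / (2 * 2 ^ i) ≤ (w / 2 + 1) / (2 * 2 ^ i) :=
      Int.ediv_le_ediv (by positivity) (by omega)
    have a1' : (w + 1) / 2 ^ 1 = w / 2 := by omega
    rw [a1, a2, a1']
    omega
  · have a1 : (w + 1) / 2 = w / 2 + 1 := by omega
    have a2 : (w + 2 * 1) / 2 = w / 2 + 1 := by omega
    have hmono : w / 2 / (2 * 2 ^ i) ≤ (w / 2 + 1) / (2 * 2 ^ i) :=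
      Int.ediv_le_ediv (by positivity) (by omega)
    have a1' : (w + 1) / 2 ^ 1 = w / 2 + 1 := by omega
    rw [a1, a2, a1']
    omega

/-- `x` is divisible by a power of two that does not divide `y`. -/
def P (x y : ℤ) : Prop := ∃ j : ℕ, (2 : ℤ) ^ j ∣ x ∧ ¬ (2 : ℤ) ^ j ∣ y

open Classical in
/-- contribution of the row `y`. -/
noncomputable def t (a h y : ℤ) : ℤ :=
  if hy : ∃ j : ℕ, ¬ (2 : ℤ) ^ j ∣ y then dl a h (Nat.find hy) else 0

open Classical in
theorem row (a h y : ℤ) (hh : 0 < h) :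
    (((Ioc a (a + h)).filter (fun x => P x y)).card : ℤ) -
      (((Ioc (a + h) (a + 2 * h)).filter (fun x => P x y)).card : ℤ) = t a h y := by
  unfold t
  split_ifs with hy
  · have key : ∀ x : ℤ, P x y ↔ (2 : ℤ) ^ (Nat.find hy) ∣ x := by
      intro x
      constructor
      · rintro ⟨j, h1, h2⟩
        exact (pow_dvd_pow 2 (Nat.find_min' hy h2)).trans h1
      · intro hx
        exact ⟨_, hx, Nat.find_spec hy⟩
    simp only [key]
    rw [cnt_dvd _ _ _ (by positivity) (by omega), cnt_dvd _ _ _ (by positivity) (by omega)]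
    unfold dl
    ring
  · have key : ∀ x : ℤ, ¬ P x y := by
      rintro x ⟨j, _, h2⟩
      exact hy ⟨j, h2⟩
    simp [key]

theorem t_cases (a m y : ℤ) (k : ℕ) :
    (¬ (2 : ℤ) ^ k ∣ y → t a (2 ^ k * m) y = 0) ∧
    ((2 : ℤ) ^ k ∣ y → ¬ (2 : ℤ) ^ (k + 1) ∣ y → t a (2 ^ k * m) y = dl (a / 2 ^ k) m 1) ∧
    ((2 : ℤ) ^ (k + 1) ∣ y → ¬ (2 : ℤ) ^ (k + 2) ∣ y →
      t a (2 ^ k * m) y = dl (a / 2 ^ k) m 2) ∧
    ((2 : ℤ) ^ (k + 1) ∣ y → t a (2 ^ k * m) y = 0 ∨
      ∃ i, t a (2 ^ k * m) y = dl (a / 2 ^ k) m (i + 2)) := by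
  classical
  have fnd : ∀ j : ℕ, (2 : ℤ) ^ j ∣ y → ¬ (2 : ℤ) ^ (j + 1) ∣ y →
      t a (2 ^ k * m) y = dl a (2 ^ k * m) (j + 1) := by
    intro j h1 h2
    have hy : ∃ j : ℕ, ¬ (2 : ℤ) ^ j ∣ y := ⟨_, h2⟩
    have e : Nat.find hy = j + 1 := by
      apply le_antisymm (Nat.find_min' hy h2)
      rw [Nat.succ_le_iff, Nat.lt_find_iff]
      intro i hi hc
      exact hc ((pow_dvd_pow 2 hi).trans h1)
    unfold t
    rw [dif_pos hy, e]
  refine ⟨?_, ?_, ?_, ?_⟩
  · intro h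
    have hy : ∃ j : ℕ, ¬ (2 : ℤ) ^ j ∣ y := ⟨_, h⟩
    unfold t
    rw [dif_pos hy]
    exact dl_low _ _ _ _ (Nat.find_min' hy h)
  · intro h1 h2
    rw [fnd k h1 h2, dl_shift]
  · intro h1 h2
    rw [fnd (k + 1) h1 h2, show k + 1 + 1 = k + 2 from rfl, dl_shift]
  · intro h1
    by_cases hy : ∃ j : ℕ, ¬ (2 : ℤ) ^ j ∣ y
    · right
      have hlt : k + 1 < Nat.find hy := by
        rw [Nat.lt_find_iff]
        intro i hi hc
        exact hc ((pow_dvd_pow 2 hi).trans h1)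
      refine ⟨Nat.find hy - k - 2, ?_⟩
      unfold t
      rw [dif_pos hy]
      rw [← dl_shift]
      congr 1
      omega
    · left
      unfold t
      rw [dif_neg hy]

theorem exists_odd (h : ℤ) (hh : 0 < h) : ∃ (k : ℕ) (m : ℤ), h = 2 ^ k * m ∧ m % 2 = 1 ∧ 0 < m := by
  obtain ⟨n, rfl⟩ : ∃ n : ℕ, h = n := ⟨h.toNat, by omega⟩
  have hn : n ≠ 0 := by omega
  obtain ⟨k, m, hm, e⟩ := Nat.exists_eq_two_pow_mul_odd hn
  refine ⟨k, m, by rw [e]; push_cast; ring, ?_, ?_⟩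
  · obtain ⟨r, hr⟩ := hm
    omega
  · obtain ⟨r, hr⟩ := hm
    omega

theorem sum_t (a b h : ℤ) (hh : 0 < h) : ∑ y ∈ Ioc b (b + 2 * h), t a h y ≠ 0 := by
  classical
  obtain ⟨k, m, rfl, hm, hm0⟩ := exists_odd h hh
  set w := a / 2 ^ k with hw
  set ε := dl w m 1 with hε
  have hε1 : ε = 1 ∨ ε = -1 := by
    rcases Int.emod_two_eq_zero_or_one w with h | h
    · right; exact (dl_one w m hm).1 h
    · left; exact (dl_one w m hm).2 h
  have hp0 : (0 : ℤ) < 2 ^ k := by positivity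
  have hp1 : (0 : ℤ) < 2 ^ (k + 1) := by positivity
  let R : ℤ → ℤ := fun y => (if (2 : ℤ) ^ k ∣ y then 1 else 0) - 2 * (if (2 : ℤ) ^ (k + 1) ∣ y then 1 else 0)
  have hR : ∑ y ∈ Ioc b (b + 2 * (2 ^ k * m)), R y = 0 := by
    simp only [R]
    rw [Finset.sum_sub_distrib, ← Finset.mul_sum, Finset.sum_boole, Finset.sum_boole,
      cnt_dvd _ _ _ hp0 (by nlinarith), cnt_dvd _ _ _ hp1 (by nlinarith)]
    have e1 : b + 2 * (2 ^ k * m) = b + (2 * m) * 2 ^ k := by ring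
    have e2 : b + 2 * (2 ^ k * m) = b + m * 2 ^ (k + 1) := by ring
    rw [show (b + 2 * (2 ^ k * m)) / 2 ^ k = b / 2 ^ k + 2 * m by
        rw [e1, Int.add_mul_ediv_right _ _ hp0.ne'],
      show (b + 2 * (2 ^ k * m)) / 2 ^ (k + 1) = b / 2 ^ (k + 1) + m by
        rw [e2, Int.add_mul_ediv_right _ _ hp1.ne']]
    ring
  have tb : ∀ y, -1 ≤ ε * t a (2 ^ k * m) y := by
    intro y
    have : -1 ≤ t a (2 ^ k * m) y ∧ t a (2 ^ k * m) y ≤ 1 := by
      unfold t
      split_ifs with hy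
      · exact dl_abs _ _ _
      · norm_num
    rcases hε1 with h | h <;> rw [h] <;> omega
  have hle : ∀ y ∈ Ioc b (b + 2 * (2 ^ k * m)), R y ≤ ε * t a (2 ^ k * m) y := by
    intro y _
    obtain ⟨c1, c2, c3, c4⟩ := t_cases a m y k
    simp only [R]
    by_cases h1 : (2 : ℤ) ^ k ∣ y
    · by_cases h2 : (2 : ℤ) ^ (k + 1) ∣ y
      · rw [if_pos h1, if_pos h2]
        have := tb y
        omega
      · rw [if_pos h1, if_neg h2, c2 h1 h2]
        change _ ≤ ε * ε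
        rcases hε1 with h | h <;> rw [h] <;> norm_num
    · have h2 : ¬ (2 : ℤ) ^ (k + 1) ∣ y := fun hc => h1 ((pow_dvd_pow 2 (Nat.le_succ k)).trans hc)
      rw [if_neg h1, if_neg h2, c1 h1]
      simp
  have hlt : ∃ y ∈ Ioc b (b + 2 * (2 ^ k * m)), R y < ε * t a (2 ^ k * m) y := by
    -- a multiple `y` of `2^(k+1)` in the interval with `t y ≠ -ε`
    suffices hs : ∃ y ∈ Ioc b (b + 2 * (2 ^ k * m)), (2 : ℤ) ^ (k + 1) ∣ y ∧
        t a (2 ^ k * m) y ≠ -ε by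
      obtain ⟨y, hy, h2, h3⟩ := hs
      refine ⟨y, hy, ?_⟩
      have h1 : (2 : ℤ) ^ k ∣ y := (pow_dvd_pow 2 (Nat.le_succ k)).trans h2
      simp only [R]
      rw [if_pos h1, if_pos h2]
      have := tb y
      rcases hε1 with h | h <;> rw [h] at this h3 ⊢ <;> omega
    have hb := Int.emod_add_mul_ediv b (2 ^ (k + 1))
    have hb0 := Int.emod_nonneg b hp1.ne'
    have hb1 := Int.emod_lt_of_pos b hp1
    set u := b / 2 ^ (k + 1) with hu
    have e2 : 2 * (2 ^ k * m) = 2 ^ (k + 1) * m := by ring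
    rw [e2]
    by_cases hm1 : m = 1
    · subst hm1
      refine ⟨2 ^ (k + 1) * (u + 1), ?_, dvd_mul_right _ _, ?_⟩
      · rw [mem_Ioc]
        constructor <;> nlinarith
      · rcases (t_cases a 1 (2 ^ (k + 1) * (u + 1)) k).2.2.2 (dvd_mul_right _ _) with h | ⟨i, h⟩
        · rw [h]
          rcases hε1 with h | h <;> rw [h] <;> norm_num
        · rw [h]
          exact dl_unit _ _
    · have hm3 : 2 ≤ m := by omega
      obtain ⟨z, hz1, hz2, hz3⟩ : ∃ z, u + 1 ≤ z ∧ z ≤ u + 2 ∧ z % 2 = 1 := by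
        rcases Int.emod_two_eq_zero_or_one u with h | h
        · exact ⟨u + 1, by omega, by omega, by omega⟩
        · exact ⟨u + 2, by omega, by omega, by omega⟩
      refine ⟨2 ^ (k + 1) * z, ?_, dvd_mul_right _ _, ?_⟩
      · rw [mem_Ioc]
        constructor
        · nlinarith
        · nlinarith
      · have h2 : ¬ (2 : ℤ) ^ (k + 2) ∣ 2 ^ (k + 1) * z := by
          intro hc
          rw [show (2 : ℤ) ^ (k + 2) = 2 ^ (k + 1) * 2 by ring] at hc
          have := Int.dvd_of_mul_dvd_mul_left hp1.ne' hc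
          omega
        rw [(t_cases a m (2 ^ (k + 1) * z) k).2.2.1 (dvd_mul_right _ _) h2]
        exact dl_two w m hm
  have := Finset.sum_lt_sum hle hlt
  rw [hR, ← Finset.mul_sum] at this
  intro h0
  rw [h0, mul_zero] at this
  exact lt_irrefl _ this

open Classical in
/-- The set `P` never has equally many points in the left and the right half of a square. -/
theorem core (a b h : ℤ) (hh : 0 < h) :
    ((Ioc a (a + h) ×ˢ Ioc b (b + 2 * h)).filter (fun p => P p.1 p.2)).card ≠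
      ((Ioc (a + h) (a + 2 * h) ×ˢ Ioc b (b + 2 * h)).filter (fun p => P p.1 p.2)).card := by
  intro he
  apply sum_t a b h hh
  have e : ∀ u v : ℤ, (((Ioc u v ×ˢ Ioc b (b + 2 * h)).filter (fun p => P p.1 p.2)).card : ℤ) =
      ∑ y ∈ Ioc b (b + 2 * h), (((Ioc u v).filter (fun x => P x y)).card : ℤ) := by
    intro u v
    rw [Finset.card_filter, Finset.sum_product_right]
    push_cast
    refine Finset.sum_congr rfl fun y _ => ?_
    rw [Finset.card_filter]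
    push_cast
    rfl
  have he' := congrArg (Nat.cast : ℕ → ℤ) he
  rw [e, e] at he'
  calc ∑ y ∈ Ioc b (b + 2 * h), t a h y
      = ∑ y ∈ Ioc b (b + 2 * h), ((((Ioc a (a + h)).filter (fun x => P x y)).card : ℤ) -
        (((Ioc (a + h) (a + 2 * h)).filter (fun x => P x y)).card : ℤ)) :=
        Finset.sum_congr rfl fun y _ => (row a h y hh).symm
    _ = 0 := by rw [Finset.sum_sub_distrib, he', sub_self]

end Pool.Agent.Q228.Neck
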