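import Mathlib

/-!
# Discrete necklace splitting of `ℤ^d`: definitions
-/

set_option autoImplicit false

namespace Pool.Agent.Q228.Neck

/-- The cube `∏ {a_i + 1, …, a_i + n}` in `ℤ^d`. -/
noncomputable def cube {d : ℕ} (a : Fin d → ℤ) (n : ℕ) : Finset (Fin d → ℤ) :=
  Fintype.piFinset fun i => Finset.Icc (a i + 1) (a i + n)

/-- A cut: the pair `(i, m)` stands for the hyperplane `x_i = m + 1/2`. A point `p` of `ℤ^d` lies on
its lower side iff `p i ≤ m`, and on its upper side otherwise. -/
abbrev Cut (d : ℕ) := Fin d × ℤ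

/-- Two points lie in the same piece of the division of a cube by the family `H` of cuts iff no cut
of `H` separates them. -/
def SamePiece {d : ℕ} (H : Finset (Cut d)) (p q : Fin d → ℤ) : Prop :=
  ∀ h ∈ H, (p h.1 ≤ h.2 ↔ q h.1 ≤ h.2)

/-- The cuts `H`, with the pieces assigned to the two parts `true`, `false` by `part`, are a fair
splitting of the cube `∏ {a_i + 1, …, a_i + n}` under `c`: `part` is constant on every piece, and
for every colour `j` the two parts contain the same number of points of colour `j`. -/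
def FairSplitting {d k : ℕ} (c : (Fin d → ℤ) → Fin k) (a : Fin d → ℤ) (n : ℕ)
    (H : Finset (Cut d)) (part : (Fin d → ℤ) → Bool) : Prop :=
  (∀ p ∈ cube a n, ∀ q ∈ cube a n, SamePiece H p q → part p = part q) ∧
    ∀ j : Fin k, ((cube a n).filter fun p => c p = j ∧ part p = true).card =
      ((cube a n).filter fun p => c p = j ∧ part p = false).card

/-- No cube (of side `n ≥ 1`) has a fair splitting under `c` using at most `t` cuts. -/
def Avoids {d k : ℕ} (t : ℕ) (c : (Fin d → ℤ) → Fin k) : Prop :=
  ∀ (a : Fin d → ℤ) (n : ℕ), 1 ≤ n → ∀ H : Finset (Cut d), H.card ≤ t →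
    ∀ part : (Fin d → ℤ) → Bool, ¬ FairSplitting c a n H part

/-- `g(t,d)`: the least `k` such that some `k`-colouring of `ℤ^d` has no cube with a fair splitting
using at most `t` cuts (`⊤` if there is no such `k`). -/
noncomputable def g (t d : ℕ) : ℕ∞ :=
  ⨅ k ∈ {k : ℕ | ∃ c : (Fin d → ℤ) → Fin k, Avoids t c}, (k : ℕ∞)

end Pool.Agent.Q228.Neck
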