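import Pool.Agent.Q228.Neck.Upper

set_option autoImplicit false

namespace Pool.Agent.Q228.Neck

open Finset

theorem sum_Ioc_range (f : ℤ → ℤ) (a : ℤ) (n : ℕ) :
    ∑ x ∈ Ioc a (a + n), f x = ∑ i ∈ range n, f (a + 1 + i) := by
  symm
  apply Finset.sum_nbij' (fun i : ℕ => a + 1 + (i : ℤ)) (fun x => (x - a - 1).toNat)
  · intro i hi
    simp only [mem_range, mem_Ioc] at *
    omega
  · intro i hi
    simp only [mem_range, mem_Ioc] at *
    omega
  · intro i hi
    simp only [mem_range] at *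
    omega
  · intro i hi
    simp only [mem_Ioc] at *
    omega
  · intro i _
    rfl

/-- The sign of a point under a 2-colouring. -/
def F (c : (Fin 2 → ℤ) → Fin 2) (x y : ℤ) : ℤ := if c ![x, y] = 0 then 1 else -1

theorem F_cases (c : (Fin 2 → ℤ) → Fin 2) (x y : ℤ) : F c x y = 1 ∨ F c x y = -1 := by
  unfold F
  split_ifs
  · left; rfl
  · right; rfl

/-- counts of a colour on a rectangle from the sum of the signs -/
theorem cnt_eq (c : (Fin 2 → ℤ) → Fin 2) (S T : Finset (ℤ × ℤ)) (hST : S.card = T.card)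
    (h : ∑ q ∈ S, F c q.1 q.2 = ∑ q ∈ T, F c q.1 q.2) (j : Fin 2) :
    (S.filter (fun q => c ![q.1, q.2] = j)).card = (T.filter (fun q => c ![q.1, q.2] = j)).card := by
  have e0 : ∀ U : Finset (ℤ × ℤ), ∑ q ∈ U, F c q.1 q.2 =
      2 * ((U.filter (fun q => c ![q.1, q.2] = 0)).card : ℤ) - U.card := by
    intro U
    rw [Finset.card_filter, Finset.card_eq_sum_ones]
    push_cast
    rw [Finset.mul_sum, ← Finset.sum_sub_distrib]
    refine Finset.sum_congr rfl fun q _ => ?_
    unfold F
    split_ifs <;> norm_num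
  have e1 : ∀ U : Finset (ℤ × ℤ), (U.filter (fun q => c ![q.1, q.2] = 0)).card +
      (U.filter (fun q => c ![q.1, q.2] = 1)).card = U.card := by
    intro U
    rw [← Finset.card_filter_add_card_filter_not (s := U) (fun q => c ![q.1, q.2] = 0)]
    congr 2
    ext q
    simp only [mem_filter, and_congr_right_iff]
    intro _
    omega
  have a1 := e0 S
  have a2 := e0 T
  have b1 := e1 S
  have b2 := e1 T
  have h01 : j = 0 ∨ j = 1 := by omega
  rcases h01 with rfl | rfl <;> omega

theorem vert (c : (Fin 2 → ℤ) → Fin 2) (hc : Avoids 1 c) (a b : ℤ) (h : ℕ) (hh : 1 ≤ h) :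
    ∑ i ∈ range (2 * h), ∑ j ∈ range h, F c (a + 1 + j) (b + 1 + i) ≠
      ∑ i ∈ range (2 * h), ∑ j ∈ range h, F c (a + h + 1 + j) (b + 1 + i) := by
  intro he
  apply hc ![a, b] (2 * h) (by omega) {(0, a + h)} (by simp) (fun p => decide (p 0 ≤ a + h))
  refine ⟨?_, ?_⟩
  · intro p _ q _ hpq
    have := hpq (0, a + h) (by simp)
    simp only at this ⊢
    simp only [this]
  · intro j
    have s1 := card_cube_filter ![a, b] (2 * h) (fun q => c ![q.1, q.2] = j ∧ decide (q.1 ≤ a + h) = true)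
    have s2 := card_cube_filter ![a, b] (2 * h) (fun q => c ![q.1, q.2] = j ∧ decide (q.1 ≤ a + h) = false)
    have ep : ∀ p : Fin 2 → ℤ, ![p 0, p 1] = p := by
      intro p
      funext i
      fin_cases i <;> rfl
    simp only [ep] at s1 s2
    rw [s1, s2]
    have e1 : (Ioc (![a, b] 0) (![a, b] 0 + ((2 * h : ℕ) : ℤ)) ×ˢ Ioc (![a, b] 1) (![a, b] 1 + ((2 * h : ℕ) : ℤ))).filter
        (fun q => c ![q.1, q.2] = j ∧ decide (q.1 ≤ a + h) = true) =
        (Ioc a (a + h) ×ˢ Ioc b (b + (2 * h : ℕ))).filter (fun q => c ![q.1, q.2] = j) := by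
      ext q
      simp only [mem_filter, mem_product, mem_Ioc, Matrix.cons_val_zero, Matrix.cons_val_one,
        decide_eq_true_eq]
      constructor
      · rintro ⟨⟨⟨u1, u2⟩, u3⟩, u4, u5⟩
        exact ⟨⟨⟨u1, by omega⟩, u3⟩, u4⟩
      · rintro ⟨⟨⟨u1, u2⟩, u3⟩, u4⟩
        exact ⟨⟨⟨u1, by omega⟩, u3⟩, u4, by omega⟩
    have e2 : (Ioc (![a, b] 0) (![a, b] 0 + ((2 * h : ℕ) : ℤ)) ×ˢ Ioc (![a, b] 1) (![a, b] 1 + ((2 * h : ℕ) : ℤ))).filter
        (fun q => c ![q.1, q.2] = j ∧ decide (q.1 ≤ a + h) = false) =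
        (Ioc (a + h) (a + h + h) ×ˢ Ioc b (b + (2 * h : ℕ))).filter (fun q => c ![q.1, q.2] = j) := by
      ext q
      simp only [mem_filter, mem_product, mem_Ioc, Matrix.cons_val_zero, Matrix.cons_val_one,
        decide_eq_false_iff_not]
      constructor
      · rintro ⟨⟨⟨u1, u2⟩, u3⟩, u4, u5⟩
        exact ⟨⟨⟨by omega, by omega⟩, u3⟩, u4⟩
      · rintro ⟨⟨⟨u1, u2⟩, u3⟩, u4⟩
        exact ⟨⟨⟨by omega, by omega⟩, u3⟩, u4, by omega⟩
    rw [e1, e2]
    apply cnt_eq
    · rw [card_product, card_product]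
      congr 1
      simp
    · rw [Finset.sum_product_right, Finset.sum_product_right, sum_Ioc_range, sum_Ioc_range]
      simp only [sum_Ioc_range]
      exact he

theorem horiz (c : (Fin 2 → ℤ) → Fin 2) (hc : Avoids 1 c) (a b : ℤ) (h : ℕ) (hh : 1 ≤ h) :
    ∑ j ∈ range (2 * h), ∑ i ∈ range h, F c (a + 1 + j) (b + 1 + i) ≠
      ∑ j ∈ range (2 * h), ∑ i ∈ range h, F c (a + 1 + j) (b + h + 1 + i) := by
  intro he
  apply hc ![a, b] (2 * h) (by omega) {(1, b + h)} (by simp) (fun p => decide (p 1 ≤ b + h))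
  refine ⟨?_, ?_⟩
  · intro p _ q _ hpq
    have := hpq (1, b + h) (by simp)
    simp only at this ⊢
    simp only [this]
  · intro j
    have s1 := card_cube_filter ![a, b] (2 * h) (fun q => c ![q.1, q.2] = j ∧ decide (q.2 ≤ b + h) = true)
    have s2 := card_cube_filter ![a, b] (2 * h) (fun q => c ![q.1, q.2] = j ∧ decide (q.2 ≤ b + h) = false)
    have ep : ∀ p : Fin 2 → ℤ, ![p 0, p 1] = p := by
      intro p
      funext i
      fin_cases i <;> rfl
    simp only [ep] at s1 s2
    rw [s1, s2]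
    have e1 : (Ioc (![a, b] 0) (![a, b] 0 + ((2 * h : ℕ) : ℤ)) ×ˢ Ioc (![a, b] 1) (![a, b] 1 + ((2 * h : ℕ) : ℤ))).filter
        (fun q => c ![q.1, q.2] = j ∧ decide (q.2 ≤ b + h) = true) =
        (Ioc a (a + (2 * h : ℕ)) ×ˢ Ioc b (b + h)).filter (fun q => c ![q.1, q.2] = j) := by
      ext q
      simp only [mem_filter, mem_product, mem_Ioc, Matrix.cons_val_zero, Matrix.cons_val_one,
        decide_eq_true_eq]
      constructor
      · rintro ⟨⟨u3, ⟨u1, u2⟩⟩, u4, u5⟩
        exact ⟨⟨u3, ⟨u1, by omega⟩⟩, u4⟩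
      · rintro ⟨⟨u3, ⟨u1, u2⟩⟩, u4⟩
        exact ⟨⟨u3, ⟨u1, by omega⟩⟩, u4, by omega⟩
    have e2 : (Ioc (![a, b] 0) (![a, b] 0 + ((2 * h : ℕ) : ℤ)) ×ˢ Ioc (![a, b] 1) (![a, b] 1 + ((2 * h : ℕ) : ℤ))).filter
        (fun q => c ![q.1, q.2] = j ∧ decide (q.2 ≤ b + h) = false) =
        (Ioc a (a + (2 * h : ℕ)) ×ˢ Ioc (b + h) (b + h + h)).filter (fun q => c ![q.1, q.2] = j) := by
      ext q
      simp only [mem_filter, mem_product, mem_Ioc, Matrix.cons_val_zero, Matrix.cons_val_one,
        decide_eq_false_iff_not]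
      constructor
      · rintro ⟨⟨u3, ⟨u1, u2⟩⟩, u4, u5⟩
        exact ⟨⟨u3, ⟨by omega, by omega⟩⟩, u4⟩
      · rintro ⟨⟨u3, ⟨u1, u2⟩⟩, u4⟩
        exact ⟨⟨u3, ⟨by omega, by omega⟩⟩, u4, by omega⟩
    rw [e1, e2]
    apply cnt_eq
    · rw [card_product, card_product]
      congr 1
      simp
    · rw [Finset.sum_product, Finset.sum_product, sum_Ioc_range]
      simp only [sum_Ioc_range]
      exact he

/-- No 2-colouring of the plane avoids fair splittings by one cut. -/
theorem lower (c : (Fin 2 → ℤ) → Fin 2) (hc : Avoids 1 c) : False := by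
  have FC := F_cases c
  -- two by two squares
  have c1 : ∀ x y, F c x y * F c (x + 1) y * F c x (y + 1) * F c (x + 1) (y + 1) = -1 := by
    intro x y
    have v := vert c hc (x - 1) (y - 1) 1 le_rfl
    have w := horiz c hc (x - 1) (y - 1) 1 le_rfl
    simp only [Finset.sum_range_succ, Finset.sum_range_zero, mul_one, Nat.cast_zero, Nat.cast_one,
      zero_add, add_zero, sub_add_cancel] at v w
    rcases FC x y with h1 | h1 <;> rcases FC (x + 1) y with h2 | h2 <;>
      rcases FC x (y + 1) with h3 | h3 <;> rcases FC (x + 1) (y + 1) with h4 | h4 <;>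
      simp only [h1, h2, h3, h4] at v w ⊢ <;> omega
  have c2 : ∀ x y, F c x (y + 1) * F c (x + 2) (y + 1) = F c x y * F c (x + 2) y := by
    intro x y
    have u := c1 x y
    have v := c1 (x + 1) y
    rw [show x + 1 + 1 = x + 2 by ring] at v
    rcases FC x y with h1 | h1 <;> rcases FC (x + 1) y with h2 | h2 <;>
      rcases FC x (y + 1) with h3 | h3 <;> rcases FC (x + 1) (y + 1) with h4 | h4 <;>
      rcases FC (x + 2) y with h5 | h5 <;> rcases FC (x + 2) (y + 1) with h6 | h6 <;>
      simp only [h1, h2, h3, h4, h5, h6] at u v ⊢ <;> omega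
  have c2' : ∀ x y (i : ℕ), F c x (y + i) * F c (x + 2) (y + i) = F c x y * F c (x + 2) y := by
    intro x y i
    induction i with
    | zero => simp
    | succ i ih =>
      rw [← ih, Nat.cast_succ, ← add_assoc]
      exact c2 x (y + i)
  -- four by four squares
  have c3 : ∀ x y, F c (x + 1) y * F c (x + 3) y = -(F c x y * F c (x + 2) y) := by
    intro x y
    by_contra hne
    have e3 : ∀ i : ℕ, F c (x + 1) (y + i) * F c (x + 3) (y + i) = F c x y * F c (x + 2) y := by
      intro i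
      have := c2' (x + 1) y i
      rw [show x + 1 + 2 = x + 3 by ring] at this
      rw [this]
      rcases FC (x + 1) y with h1 | h1 <;> rcases FC (x + 3) y with h2 | h2 <;>
        rcases FC x y with h3 | h3 <;> rcases FC (x + 2) y with h4 | h4 <;>
        simp only [h1, h2, h3, h4] at hne ⊢ <;> omega
    have hq : F c x y * F c (x + 2) y = 1 ∨ F c x y * F c (x + 2) y = -1 := by
      rcases FC x y with h3 | h3 <;> rcases FC (x + 2) y with h4 | h4 <;> rw [h3, h4] <;> norm_num
    have sol : ∀ u v s : ℤ, (u = 1 ∨ u = -1) → u * v = s → v = s * u := by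
      rintro u v s (rfl | rfl) h <;> linarith
    have r0 : ∀ i : ℕ, F c (x + 2) (y + i) = F c x y * F c (x + 2) y * F c x (y + i) := fun i =>
      sol _ _ _ (FC x (y + i)) (c2' x y i)
    have r1 : ∀ i : ℕ, F c (x + 3) (y + i) = F c x y * F c (x + 2) y * F c (x + 1) (y + i) :=
      fun i => sol _ _ _ (FC (x + 1) (y + i)) (e3 i)
    rcases hq with hq | hq
    · apply vert c hc (x - 1) (y - 1) 2 (by norm_num)
      simp only [sub_add_cancel]
      refine Finset.sum_congr rfl fun i _ => ?_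
      simp only [Finset.sum_range_succ, Finset.sum_range_zero, Nat.cast_zero, Nat.cast_one,
        zero_add, add_zero, Nat.cast_ofNat]
      have a0 := r0 i
      have a1 := r1 i
      rw [hq, one_mul] at a0 a1
      rw [show x - 1 + 2 + 1 = x + 2 by ring, show x + 2 + 1 = x + 3 by ring, a0, a1]
    · apply horiz c hc (x - 1) (y - 1) 2 (by norm_num)
      have col : ∀ i : ℕ, ∑ j ∈ range (2 * 2), F c (x + j) (y + i) = 0 := by
        intro i
        simp only [Finset.sum_range_succ, Finset.sum_range_zero, Nat.cast_zero, Nat.cast_one,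
          zero_add, add_zero, Nat.cast_ofNat, Nat.reduceMul]
        have a0 := r0 i
        have a1 := r1 i
        rw [hq] at a0 a1
        rw [a0, a1]
        ring
      rw [Finset.sum_comm, Finset.sum_comm (s := range (2 * 2))]
      simp only [sub_add_cancel]
      have L : ∑ i ∈ range 2, ∑ j ∈ range (2 * 2), F c (x + j) (y + i) = 0 :=
        Finset.sum_eq_zero fun i _ => col i
      have R : ∑ i ∈ range 2, ∑ j ∈ range (2 * 2), F c (x + j) (y - 1 + (2 : ℕ) + 1 + i) = 0 := by
        refine Finset.sum_eq_zero fun i _ => ?_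
        have := col (i + 2)
        rw [← this]
        refine Finset.sum_congr rfl fun j _ => ?_
        congr 1
        push_cast
        ring
      rw [L, R]
  -- period four
  have c4 : ∀ x y, F c (x + 4) y = F c x y := by
    intro x y
    have u := c3 x y
    have v := c3 (x + 1) y
    rw [show x + 1 + 1 = x + 2 by ring, show x + 1 + 3 = x + 4 by ring,
      show x + 1 + 2 = x + 3 by ring, u] at v
    rcases FC x y with h1 | h1 <;> rcases FC (x + 2) y with h2 | h2 <;>
      rcases FC (x + 4) y with h3 | h3 <;> simp only [h1, h2, h3] at v ⊢ <;> omega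
  apply vert c hc 0 0 4 (by norm_num)
  refine Finset.sum_congr rfl fun i _ => Finset.sum_congr rfl fun j _ => ?_
  rw [← c4]
  congr 1
  push_cast
  ring

/-- A colouring with fewer colours is a colouring with more colours. -/
theorem avoids_castLE {t d k l : ℕ} (hkl : k ≤ l) (c : (Fin d → ℤ) → Fin k) (hc : Avoids t c) :
    Avoids t (fun p => Fin.castLE hkl (c p)) := by
  intro a n hn H hH part hf
  apply hc a n hn H hH part
  refine ⟨hf.1, fun j => ?_⟩
  have := hf.2 (Fin.castLE hkl j)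
  simpa only [Fin.castLE_inj] using this

theorem main : g 1 2 = 3 := by
  unfold g
  apply le_antisymm
  · exact iInf₂_le 3 ⟨col, col_avoids⟩
  · refine le_iInf₂ fun k hk => ?_
    obtain ⟨c, hc⟩ := hk
    by_contra hlt
    rw [not_le] at hlt
    have hk2 : k ≤ 2 := by
      have : k < 3 := by exact_mod_cast hlt
      omega
    exact lower _ (avoids_castLE hk2 c hc)

end Pool.Agent.Q228.Neck
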