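import Pool.Agent.Q228.Neck.Defs
import Pool.Agent.Q228.Neck.Core

set_option autoImplicit false

namespace Pool.Agent.Q228.Neck

open Finset

/-- The points of a cube as pairs, for `d = 2`, read with the coordinates in the order `i, i'`. -/
theorem card_cube_filter (a : Fin 2 → ℤ) (n : ℕ) (Q : ℤ × ℤ → Prop) [DecidablePred Q] :
    ((cube a n).filter (fun p => Q (p 0, p 1))).card =
      ((Ioc (a 0) (a 0 + n) ×ˢ Ioc (a 1) (a 1 + n)).filter Q).card := by
  apply Finset.card_nbij' (fun p => (p 0, p 1)) (fun q => ![q.1, q.2])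
  · intro p hp
    simp only [coe_filter, Set.mem_ofPred_eq, cube, Fintype.mem_piFinset, mem_Icc, mem_product,
      mem_Ioc] at hp ⊢
    have h0 := hp.1 0
    have h1 := hp.1 1
    exact ⟨⟨⟨by omega, by omega⟩, ⟨by omega, by omega⟩⟩, hp.2⟩
  · intro q hq
    simp only [coe_filter, Set.mem_ofPred_eq, cube, Fintype.mem_piFinset, mem_Icc, mem_product,
      mem_Ioc, Fin.forall_fin_two, Matrix.cons_val_zero, Matrix.cons_val_one] at hq ⊢
    exact ⟨⟨⟨by omega, by omega⟩, ⟨by omega, by omega⟩⟩, hq.2⟩
  · intro p _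
    funext i
    fin_cases i <;> rfl
  · intro q _
    rfl

/-- A fair splitting with at most one cut is by one cut `x_i = m + 1/2`, with the lower points in one
part and the upper points in the other. -/
theorem one_cut {d k : ℕ} (c : (Fin d → ℤ) → Fin k) (a : Fin d → ℤ) (n : ℕ) (hn : 1 ≤ n)
    (H : Finset (Cut d)) (hH : H.card ≤ 1) (part : (Fin d → ℤ) → Bool)
    (hf : FairSplitting c a n H part) :
    ∃ i : Fin d, ∃ m : ℤ, ∀ j : Fin k,
      ((cube a n).filter fun p => c p = j ∧ p i ≤ m).card =
        ((cube a n).filter fun p => c p = j ∧ ¬ p i ≤ m).card := by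
  classical
  obtain ⟨hp, hc⟩ := hf
  -- the two parts have the same size
  have hsum : ∀ b : Bool, ((cube a n).filter fun p => part p = b).card =
      ∑ j : Fin k, ((cube a n).filter fun p => c p = j ∧ part p = b).card := by
    intro b
    rw [Finset.card_eq_sum_card_fiberwise (f := c) (t := Finset.univ) (fun _ _ => by simp)]
    refine Finset.sum_congr rfl fun j _ => ?_
    rw [Finset.filter_filter]
    congr 1
    ext p
    simp only [mem_filter]
    tauto
  have heq : ((cube a n).filter fun p => part p = true).card =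
      ((cube a n).filter fun p => part p = false).card := by
    rw [hsum, hsum]
    exact Finset.sum_congr rfl fun j _ => hc j
  have htot : ((cube a n).filter fun p => part p = true).card +
      ((cube a n).filter fun p => part p = false).card = (cube a n).card := by
    rw [← Finset.card_filter_add_card_filter_not (s := cube a n) (fun p => part p = true)]
    congr 2
    ext p
    simp
  have hne : 0 < (cube a n).card := by
    rw [Finset.card_pos]
    refine ⟨fun i => a i + 1, ?_⟩
    simp only [cube, Fintype.mem_piFinset, mem_Icc]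
    intro i
    constructor
    · exact le_rfl
    · have : (1 : ℤ) ≤ n := by exact_mod_cast hn
      omega
  obtain ⟨p, hpm⟩ : ((cube a n).filter fun p => part p = true).Nonempty := by
    rw [← Finset.card_pos]; omega
  obtain ⟨q, hqm⟩ : ((cube a n).filter fun p => part p = false).Nonempty := by
    rw [← Finset.card_pos]; omega
  rw [mem_filter] at hpm hqm
  have hns : ¬ SamePiece H p q := by
    intro h
    have := hp p hpm.1 q hqm.1 h
    rw [hpm.2, hqm.2] at this
    exact absurd this (by decide)
  unfold SamePiece at hns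
  push Not at hns
  obtain ⟨⟨i, m⟩, him, hsep⟩ := hns
  have hHe : H = {(i, m)} := by
    apply Finset.eq_singleton_iff_unique_mem.mpr
    exact ⟨him, fun x hx => Finset.card_le_one.mp hH x hx _ him⟩
  have hsame : ∀ r s : Fin d → ℤ, (r i ≤ m ↔ s i ≤ m) → SamePiece H r s := by
    intro r s hrs h hh
    rw [hHe, mem_singleton] at hh
    subst hh
    exact hrs
  refine ⟨i, m, fun j => ?_⟩
  by_cases hpi : p i ≤ m
  · have hqi : ¬ q i ≤ m := by
      rcases hsep with ⟨_, h⟩ | ⟨h, _⟩
      · exact not_le.mpr h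
      · exact absurd hpi (not_le.mpr h)
    have e1 : ((cube a n).filter fun r => c r = j ∧ r i ≤ m) =
        ((cube a n).filter fun r => c r = j ∧ part r = true) := by
      apply Finset.filter_congr
      intro r hr
      constructor
      · rintro ⟨h1, h2⟩
        refine ⟨h1, ?_⟩
        rw [← hpm.2]
        exact hp r hr p hpm.1 (hsame _ _ (by tauto))
      · rintro ⟨h1, h2⟩
        refine ⟨h1, ?_⟩
        by_contra h3
        have := hp r hr q hqm.1 (hsame _ _ (by tauto))
        rw [h2, hqm.2] at this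
        exact absurd this (by decide)
    have e2 : ((cube a n).filter fun r => c r = j ∧ ¬ r i ≤ m) =
        ((cube a n).filter fun r => c r = j ∧ part r = false) := by
      apply Finset.filter_congr
      intro r hr
      constructor
      · rintro ⟨h1, h2⟩
        refine ⟨h1, ?_⟩
        rw [← hqm.2]
        exact hp r hr q hqm.1 (hsame _ _ (by tauto))
      · rintro ⟨h1, h2⟩
        refine ⟨h1, ?_⟩
        intro h3
        have := hp r hr p hpm.1 (hsame _ _ (by tauto))
        rw [h2, hpm.2] at this
        exact absurd this (by decide)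
    rw [e1, e2]
    exact hc j
  · have hqi : q i ≤ m := by
      rcases hsep with ⟨h, _⟩ | ⟨_, h⟩
      · exact absurd h hpi
      · exact h
    have e1 : ((cube a n).filter fun r => c r = j ∧ r i ≤ m) =
        ((cube a n).filter fun r => c r = j ∧ part r = false) := by
      apply Finset.filter_congr
      intro r hr
      constructor
      · rintro ⟨h1, h2⟩
        refine ⟨h1, ?_⟩
        rw [← hqm.2]
        exact hp r hr q hqm.1 (hsame _ _ (by tauto))
      · rintro ⟨h1, h2⟩
        refine ⟨h1, ?_⟩
        by_contra h3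
        have := hp r hr p hpm.1 (hsame _ _ (by tauto))
        rw [h2, hpm.2] at this
        exact absurd this (by decide)
    have e2 : ((cube a n).filter fun r => c r = j ∧ ¬ r i ≤ m) =
        ((cube a n).filter fun r => c r = j ∧ part r = true) := by
      apply Finset.filter_congr
      intro r hr
      constructor
      · rintro ⟨h1, h2⟩
        refine ⟨h1, ?_⟩
        rw [← hpm.2]
        exact hp r hr p hpm.1 (hsame _ _ (by tauto))
      · rintro ⟨h1, h2⟩
        refine ⟨h1, ?_⟩
        intro h3
        have := hp r hr q hqm.1 (hsame _ _ (by tauto))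
        rw [h2, hqm.2] at this
        exact absurd this (by decide)
    rw [e1, e2]
    exact (hc j).symm

/-- If a cut of an interval has equally many points on both sides, it is the middle cut. -/
theorem middle (a m : ℤ) (n : ℕ) (hn : 1 ≤ n)
    (h : ((Ioc a (a + n)).filter (fun x => x ≤ m)).card =
      ((Ioc a (a + n)).filter (fun x => ¬ x ≤ m)).card) :
    0 < m - a ∧ (n : ℤ) = 2 * (m - a) := by
  have e1 : (Ioc a (a + n)).filter (fun x => x ≤ m) = Ioc a (min m (a + n)) := by
    ext x
    simp only [mem_filter, mem_Ioc, le_min_iff]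
    tauto
  have e2 : (Ioc a (a + n)).filter (fun x => ¬ x ≤ m) = Ioc (max a m) (a + n) := by
    ext x
    simp only [mem_filter, mem_Ioc, max_lt_iff, not_le]
    tauto
  rw [e1, e2, Int.card_Ioc, Int.card_Ioc] at h
  omega

open Classical in
/-- The colouring: compare the exponents of two in the coordinates. -/
noncomputable def col (p : Fin 2 → ℤ) : Fin 3 :=
  if P (p 0) (p 1) then 1 else if P (p 1) (p 0) then 2 else 0

theorem P_asymm (x y : ℤ) (h1 : P x y) (h2 : P y x) : False := by
  obtain ⟨i, hi, hi'⟩ := h1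
  obtain ⟨j, hj, hj'⟩ := h2
  rcases le_total i j with h | h
  · exact hi' ((pow_dvd_pow 2 h).trans hj)
  · exact hj' ((pow_dvd_pow 2 h).trans hi)

theorem col_one (p : Fin 2 → ℤ) : col p = 1 ↔ P (p 0) (p 1) := by
  unfold col
  split_ifs with h1 h2 <;> simp_all

theorem col_two (p : Fin 2 → ℤ) : col p = 2 ↔ P (p 1) (p 0) := by
  unfold col
  split_ifs with h1 h2
  · simp only [Fin.isValue, Fin.reduceEq, false_iff]
    exact fun h => P_asymm _ _ h1 h
  · simp [h2]
  · simp [h2]

theorem col_avoids : Avoids 1 col := by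
  classical
  intro a n hn H hH part hf
  obtain ⟨i, m, hm⟩ := one_cut col a n hn H hH part hf
  -- both sides have equally many points
  have htot : ((cube a n).filter fun p => p i ≤ m).card =
      ((cube a n).filter fun p => ¬ p i ≤ m).card := by
    rw [Finset.card_eq_sum_card_fiberwise (f := col) (t := Finset.univ) (fun _ _ => by simp),
      Finset.card_eq_sum_card_fiberwise (s := (cube a n).filter fun p => ¬ p i ≤ m) (f := col)
        (t := Finset.univ) (fun _ _ => by simp)]
    refine Finset.sum_congr rfl fun j _ => ?_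
    rw [Finset.filter_filter, Finset.filter_filter]
    simpa only [and_comm] using hm j
  have hnpos : 0 < n := hn
  have h01 : i = 0 ∨ i = 1 := by
    fin_cases i
    · left; rfl
    · right; rfl
  rcases h01 with rfl | rfl
  · -- vertical cut
    have t1 := card_cube_filter a n (fun q => q.1 ≤ m)
    have t2 := card_cube_filter a n (fun q => ¬ q.1 ≤ m)
    simp only at t1 t2
    rw [t1, t2, Finset.filter_product_left (fun x => x ≤ m),
      Finset.filter_product_left (fun x => ¬ x ≤ m), card_product, card_product] at htot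
    have hc : (Ioc (a 1) (a 1 + n)).card = n := by simp
    rw [hc] at htot
    have htot' := Nat.eq_of_mul_eq_mul_right hnpos htot
    obtain ⟨q1, q2⟩ := middle (a 0) m n hn htot'
    have h1 := hm 1
    simp only [col_one] at h1
    have s1 := card_cube_filter a n (fun q => P q.1 q.2 ∧ q.1 ≤ m)
    have s2 := card_cube_filter a n (fun q => P q.1 q.2 ∧ ¬ q.1 ≤ m)
    simp only at s1 s2
    rw [s1, s2] at h1
    apply core (a 0) (a 1) (m - a 0) q1
    rw [← q2]
    have e1 : (Ioc (a 0) (a 0 + n) ×ˢ Ioc (a 1) (a 1 + n)).filter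
        (fun q => P q.1 q.2 ∧ q.1 ≤ m) =
        (Ioc (a 0) (a 0 + (m - a 0)) ×ˢ Ioc (a 1) (a 1 + n)).filter (fun q => P q.1 q.2) := by
      ext q
      simp only [mem_filter, mem_product, mem_Ioc]
      constructor
      · rintro ⟨⟨⟨u1, u2⟩, u3⟩, u4, u5⟩
        exact ⟨⟨⟨u1, by omega⟩, u3⟩, u4⟩
      · rintro ⟨⟨⟨u1, u2⟩, u3⟩, u4⟩
        exact ⟨⟨⟨u1, by omega⟩, u3⟩, u4, by omega⟩
    have e2 : (Ioc (a 0) (a 0 + n) ×ˢ Ioc (a 1) (a 1 + n)).filter
        (fun q => P q.1 q.2 ∧ ¬ q.1 ≤ m) =
        (Ioc (a 0 + (m - a 0)) (a 0 + n) ×ˢ Ioc (a 1) (a 1 + n)).filter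
          (fun q => P q.1 q.2) := by
      ext q
      simp only [mem_filter, mem_product, mem_Ioc]
      constructor
      · rintro ⟨⟨⟨u1, u2⟩, u3⟩, u4, u5⟩
        exact ⟨⟨⟨by omega, u2⟩, u3⟩, u4⟩
      · rintro ⟨⟨⟨u1, u2⟩, u3⟩, u4⟩
        exact ⟨⟨⟨by omega, u2⟩, u3⟩, u4, by omega⟩
    rw [← e1, ← e2]
    exact h1
  · -- horizontal cut
    have t1 := card_cube_filter a n (fun q => q.2 ≤ m)
    have t2 := card_cube_filter a n (fun q => ¬ q.2 ≤ m)
    simp only at t1 t2
    rw [t1, t2, Finset.filter_product_right (fun x => x ≤ m),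
      Finset.filter_product_right (fun x => ¬ x ≤ m), card_product, card_product] at htot
    have hc : (Ioc (a 0) (a 0 + n)).card = n := by simp
    rw [hc] at htot
    have htot' := Nat.eq_of_mul_eq_mul_left hnpos htot
    obtain ⟨q1, q2⟩ := middle (a 1) m n hn htot'
    have h1 := hm 2
    simp only [col_two] at h1
    have s1 := card_cube_filter a n (fun q => P q.2 q.1 ∧ q.2 ≤ m)
    have s2 := card_cube_filter a n (fun q => P q.2 q.1 ∧ ¬ q.2 ≤ m)
    simp only at s1 s2
    rw [s1, s2] at h1
    apply core (a 1) (a 0) (m - a 1) q1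
    rw [← q2]
    have e1 : ((Ioc (a 0) (a 0 + n) ×ˢ Ioc (a 1) (a 1 + n)).filter
        (fun q => P q.2 q.1 ∧ q.2 ≤ m)).card =
        ((Ioc (a 1) (a 1 + (m - a 1)) ×ˢ Ioc (a 0) (a 0 + n)).filter (fun q => P q.1 q.2)).card := by
      apply Finset.card_nbij' Prod.swap Prod.swap
      · rintro ⟨x, y⟩ hq
        simp only [coe_filter, Set.mem_ofPred_eq, mem_product, mem_Ioc, Prod.swap_prod_mk] at hq ⊢
        exact ⟨⟨⟨by omega, by omega⟩, by omega⟩, hq.2.1⟩
      · rintro ⟨x, y⟩ hq
        simp only [coe_filter, Set.mem_ofPred_eq, mem_product, mem_Ioc, Prod.swap_prod_mk] at hq ⊢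
        exact ⟨⟨⟨by omega, by omega⟩, by omega⟩, hq.2, by omega⟩
      · rintro ⟨x, y⟩ _; rfl
      · rintro ⟨x, y⟩ _; rfl
    have e2 : ((Ioc (a 0) (a 0 + n) ×ˢ Ioc (a 1) (a 1 + n)).filter
        (fun q => P q.2 q.1 ∧ ¬ q.2 ≤ m)).card =
        ((Ioc (a 1 + (m - a 1)) (a 1 + n) ×ˢ Ioc (a 0) (a 0 + n)).filter
          (fun q => P q.1 q.2)).card := by
      apply Finset.card_nbij' Prod.swap Prod.swap
      · rintro ⟨x, y⟩ hq
        simp only [coe_filter, Set.mem_ofPred_eq, mem_product, mem_Ioc, Prod.swap_prod_mk] at hq ⊢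
        exact ⟨⟨⟨by omega, by omega⟩, by omega⟩, hq.2.1⟩
      · rintro ⟨x, y⟩ hq
        simp only [coe_filter, Set.mem_ofPred_eq, mem_product, mem_Ioc, Prod.swap_prod_mk] at hq ⊢
        exact ⟨⟨⟨by omega, by omega⟩, by omega⟩, hq.2, by omega⟩
      · rintro ⟨x, y⟩ _; rfl
      · rintro ⟨x, y⟩ _; rfl
    rw [← e1, ← e2]
    exact h1

end Pool.Agent.Q228.Neck
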